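import Pool.Agent.W4.QD.Stms

/-! # `S_KROOT`: the number of `k`-th roots modulo a large prime -/

set_option autoImplicit false

namespace Pool.Agent.W293.QD

open NumberField Finset Polynomial Pool.Agent.W4.QD

variable {K : Type} [Field K] [NumberField K]

theorem absNorm_p (p : ℕ) :
    Ideal.absNorm (Ideal.span {(p : 𝓞 K)}) = p ^ Module.finrank ℚ K := by
  rw [Ideal.absNorm_span_singleton]
  have h : (p : 𝓞 K) = algebraMap ℤ (𝓞 K) (p : ℤ) := by simp
  rw [h, Algebra.norm_algebraMap, RingOfIntegers.rank]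
  simp

theorem sqf (p : ℕ) (hp : p.Prime) (h0 : Ideal.absNorm (differentIdeal ℤ (𝓞 K)) < p) :
    Squarefree (Ideal.span {(p : 𝓞 K)}) := by
  intro Q hQ
  have hpI : Prime (p : ℤ) := Nat.prime_iff_prime_int.mp hp
  have hmax : (Ideal.span {(p : ℤ)}).IsMaximal :=
    PrincipalIdealRing.isMaximal_of_irreducible hpI.irreducible
  have hbot : Ideal.span {(p : ℤ)} ≠ ⊥ := by
    rw [Ne, Ideal.span_singleton_eq_bot]
    exact hpI.ne_zero
  have hmap : (Ideal.span {(p : ℤ)}).map (algebraMap ℤ (𝓞 K)) = Ideal.span {(p : 𝓞 K)} := by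
    rw [Ideal.map_span, Set.image_singleton]
    simp
  have h1 : Q ∣ differentIdeal ℤ (𝓞 K) := by
    have := pow_sub_one_dvd_differentIdeal ℤ Q 2 hbot (by rw [hmap, pow_two]; exact hQ)
    simpa using this
  have hD : differentIdeal ℤ (𝓞 K) ≠ ⊥ := differentIdeal_ne_bot
  have hD0 : Ideal.absNorm (differentIdeal ℤ (𝓞 K)) ≠ 0 := by
    rw [Ne, Ideal.absNorm_eq_zero_iff]
    exact hD
  have h2 : Ideal.absNorm Q ∣ Ideal.absNorm (differentIdeal ℤ (𝓞 K)) := map_dvd _ h1
  have h3 : Ideal.absNorm Q ∣ p ^ Module.finrank ℚ K := by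
    rw [← absNorm_p]
    exact map_dvd _ ((Dvd.intro _ rfl).trans hQ)
  by_contra hu
  have h4 : Ideal.absNorm Q ≠ 1 := by
    rw [Ne, Ideal.absNorm_eq_one_iff]
    rwa [Ideal.isUnit_iff] at hu
  have h5 : p ∣ Ideal.absNorm Q := by
    obtain ⟨m, _, hm⟩ := (Nat.dvd_prime_pow hp).mp h3
    rw [hm] at h4 ⊢
    apply dvd_pow_self
    rintro rfl
    exact h4 (pow_zero p)
  have h6 := Nat.le_of_dvd (Nat.pos_of_ne_zero hD0) (h5.trans h2)
  omega

open scoped Classical in
theorem t_KROOT : S_KROOT := by
  intro K _ _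
  refine ⟨Ideal.absNorm (differentIdeal ℤ (𝓞 K)), fun p hp hP0 k hk w s hs hinj => ?_⟩
  set I : Ideal (𝓞 K) := Ideal.span {(p : 𝓞 K)} with hI
  have hsq : Squarefree I := sqf p hp hP0
  have hI0 : I ≠ ⊥ := by
    rw [hI, Ne, Ideal.span_singleton_eq_bot]
    exact_mod_cast hp.ne_zero
  set F := UniqueFactorizationMonoid.normalizedFactors I with hF
  have hFprod : F.prod = I := Ideal.prod_normalizedFactors_eq_self hI0
  -- at most `d` primes
  have hcard : F.card ≤ Module.finrank ℚ K := by
    have h1 : (F.map Ideal.absNorm).prod = p ^ Module.finrank ℚ K := by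
      rw [← absNorm_p, ← hI, ← hFprod]
      exact (map_multiset_prod Ideal.absNorm F).symm
    have h2 : p ^ F.card ≤ (F.map Ideal.absNorm).prod := by
      have h3 : ∀ P ∈ F, p ≤ Ideal.absNorm P := by
        intro P hP
        have hPp := UniqueFactorizationMonoid.prime_of_normalized_factor P hP
        have hPI : P ∣ I := UniqueFactorizationMonoid.dvd_of_mem_normalizedFactors hP
        have h4 : Ideal.absNorm P ∣ p ^ Module.finrank ℚ K := by
          rw [← absNorm_p]
          exact map_dvd _ hPI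
        obtain ⟨m, _, hm⟩ := (Nat.dvd_prime_pow hp).mp h4
        have h5 : Ideal.absNorm P ≠ 1 := by
          rw [Ne, Ideal.absNorm_eq_one_iff]
          intro h
          exact hPp.not_isUnit (Ideal.isUnit_iff.mpr h)
        rw [hm] at h5 ⊢
        rcases Nat.eq_zero_or_pos m with h0 | h0
        · rw [h0, pow_zero] at h5
          exact absurd rfl h5
        · exact Nat.le_self_pow h0.ne' p
      have h4 : ∀ (T : Multiset (Ideal (𝓞 K))), (∀ P ∈ T, p ≤ Ideal.absNorm P) →
          p ^ T.card ≤ (T.map Ideal.absNorm).prod := by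
        intro T
        induction T using Multiset.induction_on with
        | empty => intro _; simp
        | cons a T ih =>
          intro h
          rw [Multiset.card_cons, Multiset.map_cons, Multiset.prod_cons, pow_succ, mul_comm]
          exact Nat.mul_le_mul (h a (Multiset.mem_cons_self a T))
            (ih fun P hP => h P (Multiset.mem_cons_of_mem hP))
      exact h4 F h3
    rw [h1] at h2
    exact (Nat.pow_le_pow_iff_right hp.one_lt).mp h2
  -- the finite set of primes
  let S : Finset (Ideal (𝓞 K)) := F.toFinset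
  have hScard : S.card ≤ Module.finrank ℚ K := (Multiset.toFinset_card_le F).trans hcard
  have hSprime : ∀ P : S, (P : Ideal (𝓞 K)).IsPrime := by
    intro P
    have hP : (P : Ideal (𝓞 K)) ∈ F := Multiset.mem_toFinset.mp P.2
    exact Ideal.isPrime_of_prime (UniqueFactorizationMonoid.prime_of_normalized_factor _ hP)
  let R : ∀ P : S, Finset (𝓞 K ⧸ (P : Ideal (𝓞 K))) := fun P =>
    haveI := hSprime P
    (nthRoots k (Ideal.Quotient.mk (P : Ideal (𝓞 K)) w)).toFinset
  have hR : ∀ P : S, (R P).card ≤ k := by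
    intro P
    have := hSprime P
    exact (Multiset.toFinset_card_le _).trans (card_nthRoots k _)
  have hle : ∀ P : S, I ≤ (P : Ideal (𝓞 K)) := by
    intro P
    have hP : (P : Ideal (𝓞 K)) ∈ F := Multiset.mem_toFinset.mp P.2
    exact Ideal.dvd_iff_le.mp (UniqueFactorizationMonoid.dvd_of_mem_normalizedFactors hP)
  let f : 𝓞 K → ∀ P : S, 𝓞 K ⧸ (P : Ideal (𝓞 K)) := fun x P => Ideal.Quotient.mk _ x
  have hmaps : ∀ x ∈ s, f x ∈ Fintype.piFinset R := by
    intro x hx
    rw [Fintype.mem_piFinset]
    intro P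
    have := hSprime P
    have h1 : x ^ k - w ∈ (P : Ideal (𝓞 K)) := by
      apply hle P
      rw [hI, Ideal.mem_span_singleton]
      exact hs x hx
    change Ideal.Quotient.mk (P : Ideal (𝓞 K)) x ∈
      (nthRoots k (Ideal.Quotient.mk (P : Ideal (𝓞 K)) w)).toFinset
    rw [Multiset.mem_toFinset, mem_nthRoots (by omega), ← map_pow]
    exact Ideal.Quotient.eq.mpr h1
  have hinj' : Set.InjOn f s := by
    intro x hx y hy hxy
    apply hinj x hx y hy
    rw [← Ideal.mem_span_singleton, ← hI]
    by_cases h0 : x - y = 0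
    · rw [h0]
      exact I.zero_mem
    have hrad : IsRadical I := hsq.isRadical
    rw [← Ideal.span_singleton_le_iff_mem, ← Ideal.dvd_iff_le]
    -- `I` is the product of distinct primes, each dividing `span {x - y}`
    have hnd : F.Nodup := (UniqueFactorizationMonoid.squarefree_iff_nodup_normalizedFactors
      (by simpa using hI0)).mp hsq
    rw [← hFprod]
    have h2 : F.prod = ∏ P ∈ S, P := by
      rw [Finset.prod_eq_multiset_prod, Multiset.map_id']
      change F.prod = (F.toFinset.val).prod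
      rw [Multiset.toFinset_val, Multiset.dedup_eq_self.mpr hnd]
    rw [h2]
    apply Finset.prod_dvd_of_coprime
    · intro P hP Q hQ hPQ
      have hP' := UniqueFactorizationMonoid.prime_of_normalized_factor P
        (Multiset.mem_toFinset.mp (Finset.mem_coe.mp hP))
      have hQ' := UniqueFactorizationMonoid.prime_of_normalized_factor Q
        (Multiset.mem_toFinset.mp (Finset.mem_coe.mp hQ))
      have hPm : P.IsMaximal := (Ideal.isPrime_of_prime hP').isMaximal hP'.ne_zero
      have hQm : Q.IsMaximal := (Ideal.isPrime_of_prime hQ').isMaximal hQ'.ne_zero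
      exact Ideal.isCoprime_iff_sup_eq.mpr (hPm.coprime_of_ne hQm hPQ)
    · intro P hP
      rw [Ideal.dvd_iff_le, Ideal.span_singleton_le_iff_mem]
      have := congrFun hxy ⟨P, hP⟩
      exact Ideal.Quotient.eq.mp this
  calc s.card ≤ (Fintype.piFinset R).card := Finset.card_le_card_of_injOn f hmaps hinj'
    _ = ∏ P : S, (R P).card := Fintype.card_piFinset R
    _ ≤ ∏ _P : S, k := Finset.prod_le_prod' fun P _ => hR P
    _ = k ^ S.card := by simp
    _ ≤ k ^ Module.finrank ℚ K := Nat.pow_le_pow_right hk hScard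

end Pool.Agent.W293.QD
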