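import Pool.Agent.W4.QD.Stms

/-! # `S_PRM`: primes in a short multiplicative range that do not divide a given number -/

set_option autoImplicit false

namespace Pool.Agent.W293.QD

open Finset Pool.Agent.W4.QD

theorem t_PRM : S_PRM := by
  intro ε r hε
  obtain ⟨K0, hK0⟩ := exists_nat_gt (1 / ε)
  have hK0pos : (0 : ℝ) < K0 := lt_trans (by positivity) hK0
  have hK0' : 0 < K0 := by exact_mod_cast hK0pos
  have hKe : 1 / (K0 : ℝ) ≤ ε := by
    rw [div_le_iff₀ hK0pos]
    rw [div_lt_iff₀ hε] at hK0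
    linarith
  refine ⟨2 ^ (K0 + r + 3), by positivity, fun X M hX hM => ?_⟩
  set X1 := ⌈X⌉₊ with hX1
  have hX1pos : 0 < X1 := Nat.ceil_pos.mpr (by linarith)
  have hXle : X ≤ X1 := Nat.le_ceil X
  have hX1le : (X1 : ℝ) ≤ 2 * X := by
    have := Nat.ceil_lt_add_one (by linarith : 0 ≤ X)
    linarith
  have hex : ∀ j : ℕ, ∃ p, p.Prime ∧ 2 ^ j * X1 < p ∧ p ≤ 2 * (2 ^ j * X1) := fun j =>
    Nat.exists_prime_lt_and_le_two_mul _ (by positivity)
  choose f hf1 hf2 hf3 using hex
  have hmono : StrictMono f := by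
    apply strictMono_nat_of_lt_succ
    intro j
    calc f j ≤ 2 * (2 ^ j * X1) := hf3 j
      _ = 2 ^ (j + 1) * X1 := by ring
      _ < f (j + 1) := hf2 (j + 1)
  set L := Nat.log 2 M with hL
  set b := L / K0 + 1 with hb
  let J := Finset.Ico K0 (K0 + r + b)
  have hJcard : J.card = r + b := by
    rw [Nat.card_Ico]
    generalize b = b'
    omega
  have hbad : (J.filter fun j => f j ∣ M).card < b := by
    by_contra hcon
    push Not at hcon
    obtain ⟨T, hT, hTc⟩ := Finset.exists_subset_card_eq hcon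
    have h1 : ∏ j ∈ T, f j ∣ M := by
      have h2 : ∏ j ∈ T, f j = ∏ q ∈ T.image f, q := by
        rw [Finset.prod_image]
        intro a _ c _ h
        exact hmono.injective h
      rw [h2]
      apply Finset.prod_primes_dvd
      · intro q hq
        obtain ⟨j, _, rfl⟩ := Finset.mem_image.mp hq
        exact (hf1 j).prime
      · intro q hq
        obtain ⟨j, hj, rfl⟩ := Finset.mem_image.mp hq
        exact (Finset.mem_filter.mp (hT hj)).2
    have h3 : (2 ^ K0) ^ b ≤ ∏ j ∈ T, f j := by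
      rw [← hTc]
      apply Finset.pow_card_le_prod
      intro j hj
      have hj' := (Finset.mem_filter.mp (hT hj)).1
      have hj1 : K0 ≤ j := (Finset.mem_Ico.mp hj').1
      calc 2 ^ K0 ≤ 2 ^ j := Nat.pow_le_pow_right (by norm_num) hj1
        _ ≤ 2 ^ j * X1 := Nat.le_mul_of_pos_right _ hX1pos
        _ ≤ f j := (hf2 j).le
    have h4 : ∏ j ∈ T, f j ≤ M := Nat.le_of_dvd hM h1
    have h5 : M < 2 ^ (L + 1) := Nat.lt_pow_succ_log_self (by norm_num) M
    have h6 : L + 1 ≤ K0 * b := by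
      have := Nat.div_add_mod L K0
      have h7 := Nat.mod_lt L hK0'
      rw [hb, Nat.mul_add, mul_one]
      omega
    have h8 : 2 ^ (L + 1) ≤ (2 ^ K0) ^ b := by
      rw [← pow_mul]
      exact Nat.pow_le_pow_right (by norm_num) h6
    omega
  have hgood : r ≤ (J.filter fun j => ¬ f j ∣ M).card := by
    have := Finset.card_filter_add_card_filter_not (s := J) (fun j => f j ∣ M)
    omega
  obtain ⟨T, hT, hTc⟩ := Finset.exists_subset_card_eq hgood
  refine ⟨T.image f, ?_, ?_⟩
  · rw [Finset.card_image_of_injective _ hmono.injective, hTc]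
  · intro q hq
    obtain ⟨j, hj, rfl⟩ := Finset.mem_image.mp hq
    obtain ⟨hjJ, hjM⟩ := Finset.mem_filter.mp (hT hj)
    have hj2 : j < K0 + r + b := (Finset.mem_Ico.mp hjJ).2
    refine ⟨hf1 j, ?_, ?_, hjM⟩
    · have h1 : X1 ≤ 2 ^ j * X1 := Nat.le_mul_of_pos_left _ (by positivity)
      have h2 : X1 < f j := lt_of_le_of_lt h1 (hf2 j)
      calc X ≤ X1 := hXle
        _ < f j := by exact_mod_cast h2
    · have h1 : f j ≤ 2 ^ (K0 + r + 1 + L / K0) * X1 := by
        calc f j ≤ 2 * (2 ^ j * X1) := hf3 j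
          _ = 2 ^ (j + 1) * X1 := by ring
          _ ≤ 2 ^ (K0 + r + 1 + L / K0) * X1 := by
            apply Nat.mul_le_mul_right
            apply Nat.pow_le_pow_right (by norm_num)
            omega
      have h2 : (f j : ℝ) ≤ 2 ^ (K0 + r + 1 + L / K0) * X1 := by exact_mod_cast h1
      have hMpos : (0 : ℝ) < M := by exact_mod_cast hM
      have h3 : (2 : ℝ) ^ (L / K0) ≤ (M : ℝ) ^ ε := by
        have h4 : (2 : ℝ) ^ L ≤ M := by
          have := Nat.pow_log_le_self 2 (by omega : M ≠ 0)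
          exact_mod_cast this
        calc (2 : ℝ) ^ (L / K0) = (2 : ℝ) ^ (((L / K0 : ℕ) : ℝ)) := (Real.rpow_natCast 2 _).symm
          _ ≤ (2 : ℝ) ^ ((L : ℝ) * ε) := by
            apply Real.rpow_le_rpow_of_exponent_le (by norm_num)
            calc ((L / K0 : ℕ) : ℝ) ≤ (L : ℝ) / K0 := Nat.cast_div_le
              _ = (L : ℝ) * (1 / K0) := by ring
              _ ≤ (L : ℝ) * ε := by
                apply mul_le_mul_of_nonneg_left hKe
                positivity
          _ = ((2 : ℝ) ^ L) ^ ε := by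
            rw [Real.rpow_mul (by norm_num), Real.rpow_natCast]
          _ ≤ (M : ℝ) ^ ε := Real.rpow_le_rpow (by positivity) h4 hε.le
      calc (f j : ℝ) ≤ 2 ^ (K0 + r + 1 + L / K0) * X1 := h2
        _ ≤ 2 ^ (K0 + r + 1 + L / K0) * (2 * X) := by gcongr
        _ = 2 ^ (K0 + r + 2) * X * 2 ^ (L / K0) := by ring
        _ ≤ 2 ^ (K0 + r + 3) * X * (M : ℝ) ^ ε := by
          have hXp : 0 < X := by linarith
          gcongr
          · norm_num
          · omega

end Pool.Agent.W293.QD
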